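import Mathlib

/-!
# The top-two-bids Laplace ratio map: unique determination under local positivity

Let `N ≥ 2`, let `C` be the class of the distribution functions `F` of positive random variables with
`F x > 0` for `x > 0`, and let `H F` be the ratio of the Laplace transforms of `F ^ N` and
`F ^ (N - 1)`; it is determined by `K F`. Suppose that `H F` is the Laplace transform of a signed
measure `h = hp - hm` on `[0,∞)` which is nonnegative on `[0,ε)` for some `ε > 0`. Then every `G` in `C`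
with `K G = K F` is equal to `F`. Here `G` is arbitrary and no analyticity is assumed.

Proof. By uniqueness of Laplace transforms `F ^ N = h * F ^ (N - 1)` and `G ^ N = h * G ^ (N - 1)` as
measures (with convolution on the right). The equation commutes with translations. For `τ > 0` let
`φ x = F (x - τ)`. The quotient `φ / G` is bounded on `(0,∞)` since `φ` vanishes on `(0,τ]` and
`G x ≥ G τ > 0` for `x ≥ τ`. Let `M` be the least number with `φ ≤ M G` on `(0,ε)`. As `h` is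
nonnegative on `[0,ε)`, convolution gives `φ ^ N ≤ M ^ (N - 1) G ^ N` on `(0,ε)`, hence
`M ^ N ≤ M ^ (N - 1)` and `M ≤ 1`. With `τ → 0` this gives `F ≤ G` on `(0,ε)`, and by symmetry
`F = G` on `(0,ε)`. The measure `hp` has no atom at `0` because `F` tends to `0` at `0`. If `F = G` on
`(-∞,a)` with `a ≥ ε`, an `L¹` estimate of `F ^ N - G ^ N` against `F ^ (N - 1) - G ^ (N - 1)` on
`[a,a+δ)` gives `F = G` there, with `δ` not depending on `a`.
-/

open MeasureTheory ProbabilityTheory Filter Topology Set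
open scoped ENNReal

namespace Pool.Agent.Results.MP_18566a_pr.LocalPositivity

/-- `F` is the distribution function of a positive random variable with `F x > 0` for `x > 0`. -/
structure InC (F : ℝ → ℝ) : Prop where
  mono : Monotone F
  rightCont : ∀ x, ContinuousWithinAt F (Ici x) x
  top : Tendsto F atTop (𝓝 1)
  zero : ∀ x, x ≤ 0 → F x = 0
  pos : ∀ x, 0 < x → 0 < F x

/-- Laplace transform on `(0,∞)`. -/
noncomputable def lap (f : ℝ → ℝ) (s : ℝ) : ℝ := ∫ x in Ioi 0, Real.exp (-s * x) * f x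

/-- The weighted measure `exp (-c x) f x dx` on `(0,∞)`. -/
noncomputable def D (c : ℝ) (f : ℝ → ℝ) : Measure ℝ :=
  (volume.restrict (Ioi 0)).withDensity (fun x => ENNReal.ofReal (Real.exp (-c * x) * f x))

/-- The weighted measure `exp (-c x) h(dx)`. -/
noncomputable def W (c : ℝ) (h : Measure ℝ) : Measure ℝ :=
  h.withDensity (fun x => ENNReal.ofReal (Real.exp (-c * x)))

theorem ext_of_mgf {μ ν : Measure ℝ} [IsFiniteMeasure μ] [IsFiniteMeasure ν]
    (hμ : ∀ t < 1, Integrable (fun x => Real.exp (t * x)) μ)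
    (hν : ∀ t < 1, Integrable (fun x => Real.exp (t * x)) ν)
    (h : ∀ t < 1, mgf id μ t = mgf id ν t) : μ = ν := by
  have key : Set.EqOn (complexMGF id μ) (complexMGF id ν) {z : ℂ | z.re < 1} := by
    have hX : AnalyticOnNhd ℂ (complexMGF id μ) {z : ℂ | z.re < 1} := by
      intro z hz
      apply analyticOnNhd_complexMGF (X := id) (μ := μ)
      have : Iio (1:ℝ) ⊆ interior (integrableExpSet id μ) :=
        interior_maximal (fun t ht => hμ t ht) isOpen_Iio
      exact this hz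
    have hY : AnalyticOnNhd ℂ (complexMGF id ν) {z : ℂ | z.re < 1} := by
      intro z hz
      apply analyticOnNhd_complexMGF (X := id) (μ := ν)
      have : Iio (1:ℝ) ⊆ interior (integrableExpSet id ν) :=
        interior_maximal (fun t ht => hν t ht) isOpen_Iio
      exact this hz
    refine AnalyticOnNhd.eqOn_of_preconnected_of_frequently_eq hX hY
      (convex_halfSpace_re_lt 1).isPreconnected
      (z₀ := ((0 : ℝ) : ℂ)) (by simp) ?_
    have h_real : ∃ᶠ (x : ℝ) in 𝓝[≠] (0:ℝ), complexMGF id μ x = complexMGF id ν x := by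
      apply Filter.Eventually.frequently
      have : ∀ᶠ x : ℝ in 𝓝[≠] (0:ℝ), x < 1 :=
        nhdsWithin_le_nhds (Iio_mem_nhds (by norm_num))
      filter_upwards [this] with x hx
      rw [complexMGF_ofReal, complexMGF_ofReal, h x hx]
    rw [frequently_iff_seq_forall] at h_real ⊢
    obtain ⟨xs, hx_tendsto, hx_eq⟩ := h_real
    refine ⟨fun n ↦ xs n, ?_, fun n ↦ ?_⟩
    · rw [tendsto_nhdsWithin_iff] at hx_tendsto ⊢
      constructor
      · rw [Filter.tendsto_ofReal_iff]
        exact hx_tendsto.1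
      · simpa using hx_tendsto.2
    · simp [hx_eq]
  apply Measure.ext_of_charFun
  funext t
  rw [← complexMGF_id_mul_I, ← complexMGF_id_mul_I]
  exact key (by simp)

theorem lintegral_conv' (μ ν : Measure ℝ) [SFinite μ] [SFinite ν] {f : ℝ → ℝ≥0∞} (hf : Measurable f) :
    ∫⁻ z, f z ∂(μ ∗ ν) = ∫⁻ x, ∫⁻ y, f (x + y) ∂ν ∂μ := Measure.lintegral_conv hf

theorem integrable_exp_conv {μ ν : Measure ℝ} [SFinite μ] [SFinite ν] {t : ℝ}
    (hμ : Integrable (fun x => Real.exp (t * x)) μ)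
    (hν : Integrable (fun x => Real.exp (t * x)) ν) :
    Integrable (fun x => Real.exp (t * x)) (μ ∗ ν) := by
  rw [Measure.conv, integrable_map_measure]
  · have := hμ.mul_prod hν
    refine this.congr (ae_of_all _ fun z => ?_)
    simp [mul_add, Real.exp_add]
  · exact (by fun_prop : Measurable fun x : ℝ => Real.exp (t * x)).aestronglyMeasurable
  · fun_prop

theorem mgf_conv' {μ ν : Measure ℝ} [SFinite μ] [SFinite ν] (t : ℝ) :
    mgf id (μ ∗ ν) t = mgf id μ t * mgf id ν t := by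
  unfold mgf
  rw [Measure.conv, integral_map]
  · rw [← integral_prod_mul]
    refine integral_congr_ae (ae_of_all _ fun z => ?_)
    simp [mul_add, Real.exp_add]
  · fun_prop
  · exact (by fun_prop : Measurable fun x : ℝ => Real.exp (t * id x)).aestronglyMeasurable


section basics

variable {c : ℝ} {f : ℝ → ℝ}

theorem measurable_dens (hf : Measurable f) :
    Measurable (fun x => ENNReal.ofReal (Real.exp (-c * x) * f x)) := by fun_prop

theorem integrable_exp_D (hf : Measurable f) (h0 : ∀ x, 0 ≤ f x) (h1 : ∀ x, f x ≤ 1)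
    {t : ℝ} (ht : t < c) : Integrable (fun x => Real.exp (t * x)) (D c f) := by
  unfold D
  rw [integrable_withDensity_iff_integrable_smul' (measurable_dens hf)
    (ae_of_all _ fun x => ENNReal.ofReal_lt_top)]
  have hb : IntegrableOn (fun x => Real.exp (-(c - t) * x)) (Ioi 0) :=
    exp_neg_integrableOn_Ioi 0 (by linarith)
  refine Integrable.mono' hb ?_ (ae_of_all _ fun x => ?_)
  · exact (by fun_prop : Measurable fun x : ℝ =>
      (ENNReal.ofReal (Real.exp (-c * x) * f x)).toReal • Real.exp (t * x)).aestronglyMeasurable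
  · rw [ENNReal.toReal_ofReal (mul_nonneg (Real.exp_pos _).le (h0 x)), smul_eq_mul,
      Real.norm_of_nonneg (by have := h0 x; positivity)]
    have : Real.exp (-(c - t) * x) = Real.exp (-c * x) * Real.exp (t * x) := by
      rw [← Real.exp_add]; ring_nf
    rw [this]
    have h2 := h1 x
    have h3 := Real.exp_pos (-c * x)
    have h4 := Real.exp_pos (t * x)
    nlinarith [mul_pos h3 h4]

theorem isFinite_D (hc : 0 < c) (hf : Measurable f) (h0 : ∀ x, 0 ≤ f x) (h1 : ∀ x, f x ≤ 1) :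
    IsFiniteMeasure (D c f) := by
  have := integrable_exp_D hf h0 h1 hc
  simp only [zero_mul, Real.exp_zero] at this
  exact (integrable_const_iff_isFiniteMeasure one_ne_zero).1 this

theorem mgf_D (hf : Measurable f) (h0 : ∀ x, 0 ≤ f x) (t : ℝ) :
    mgf id (D c f) t = lap f (c - t) := by
  unfold D mgf lap
  rw [integral_withDensity_eq_integral_toReal_smul (measurable_dens hf)
    (ae_of_all _ fun x => ENNReal.ofReal_lt_top)]
  refine integral_congr_ae (ae_of_all _ fun x => ?_)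
  simp only [id]
  rw [ENNReal.toReal_ofReal (mul_nonneg (Real.exp_pos _).le (h0 x)), smul_eq_mul]
  have : Real.exp (-(c - t) * x) = Real.exp (-c * x) * Real.exp (t * x) := by
    rw [← Real.exp_add]; ring_nf
  rw [this]; ring

theorem integrable_exp_W {h : Measure ℝ} {s₀ : ℝ}
    (hi : ∀ s > s₀, Integrable (fun x => Real.exp (-s * x)) h) {t : ℝ} (ht : s₀ < c - t) :
    Integrable (fun x => Real.exp (t * x)) (W c h) := by
  unfold W
  rw [integrable_withDensity_iff_integrable_smul' (by fun_prop)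
    (ae_of_all _ fun x => ENNReal.ofReal_lt_top)]
  refine (hi _ ht).congr (ae_of_all _ fun x => ?_)
  simp only
  rw [ENNReal.toReal_ofReal (Real.exp_pos _).le, smul_eq_mul, ← Real.exp_add]; ring_nf

theorem isFinite_W {h : Measure ℝ} {s₀ : ℝ}
    (hi : ∀ s > s₀, Integrable (fun x => Real.exp (-s * x)) h) (hc : s₀ < c) :
    IsFiniteMeasure (W c h) := by
  have := integrable_exp_W (c := c) (t := 0) hi (by simpa using hc)
  simp only [zero_mul, Real.exp_zero] at this
  exact (integrable_const_iff_isFiniteMeasure one_ne_zero).1 this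

theorem mgf_W {h : Measure ℝ} (t : ℝ) :
    mgf id (W c h) t = ∫ x, Real.exp (-(c - t) * x) ∂h := by
  unfold W mgf
  rw [integral_withDensity_eq_integral_toReal_smul (by fun_prop)
    (ae_of_all _ fun x => ENNReal.ofReal_lt_top)]
  refine integral_congr_ae (ae_of_all _ fun x => ?_)
  simp only [id]
  rw [ENNReal.toReal_ofReal (Real.exp_pos _).le, smul_eq_mul, ← Real.exp_add]; ring_nf

/-- The Laplace transform identity gives an identity of measures. -/
theorem measure_identity {f g : ℝ → ℝ} {hp hm : Measure ℝ} {s₀ : ℝ} (hs₀ : 0 ≤ s₀)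
    (hf : Measurable f) (f0 : ∀ x, 0 ≤ f x) (f1 : ∀ x, f x ≤ 1)
    (hg : Measurable g) (g0 : ∀ x, 0 ≤ g x) (g1 : ∀ x, g x ≤ 1)
    (hpi : ∀ s > s₀, Integrable (fun x => Real.exp (-s * x)) hp)
    (hmi : ∀ s > s₀, Integrable (fun x => Real.exp (-s * x)) hm)
    (hH : ∀ s > s₀, lap f s
      = ((∫ x, Real.exp (-s * x) ∂hp) - ∫ x, Real.exp (-s * x) ∂hm) * lap g s) :
    D (s₀ + 1) f + (W (s₀ + 1) hm ∗ D (s₀ + 1) g) = W (s₀ + 1) hp ∗ D (s₀ + 1) g := by
  have i1 : IsFiniteMeasure (D (s₀ + 1) f) := isFinite_D (by linarith) hf f0 f1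
  have i2 : IsFiniteMeasure (D (s₀ + 1) g) := isFinite_D (by linarith) hg g0 g1
  have i3 : IsFiniteMeasure (W (s₀ + 1) hm) := isFinite_W hmi (by linarith)
  have i4 : IsFiniteMeasure (W (s₀ + 1) hp) := isFinite_W hpi (by linarith)
  have e1 : ∀ t < (1:ℝ), Integrable (fun x => Real.exp (t * x)) (D (s₀ + 1) f) :=
    fun t ht => integrable_exp_D hf f0 f1 (by linarith)
  have e2 : ∀ t < (1:ℝ), Integrable (fun x => Real.exp (t * x)) (D (s₀ + 1) g) :=
    fun t ht => integrable_exp_D hg g0 g1 (by linarith)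
  have e3 : ∀ t < (1:ℝ), Integrable (fun x => Real.exp (t * x)) (W (s₀ + 1) hm) :=
    fun t ht => integrable_exp_W hmi (by linarith)
  have e4 : ∀ t < (1:ℝ), Integrable (fun x => Real.exp (t * x)) (W (s₀ + 1) hp) :=
    fun t ht => integrable_exp_W hpi (by linarith)
  apply ext_of_mgf
  · intro t ht
    exact (e1 t ht).add_measure (integrable_exp_conv (e3 t ht) (e2 t ht))
  · intro t ht
    exact integrable_exp_conv (e4 t ht) (e2 t ht)
  · intro t ht
    have hadd : mgf id (D (s₀ + 1) f + (W (s₀ + 1) hm ∗ D (s₀ + 1) g)) t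
        = mgf id (D (s₀ + 1) f) t + mgf id (W (s₀ + 1) hm ∗ D (s₀ + 1) g) t := by
      unfold mgf
      exact integral_add_measure (e1 t ht) (integrable_exp_conv (e3 t ht) (e2 t ht))
    rw [hadd, mgf_conv', mgf_conv', mgf_D hf f0, mgf_D hg g0, mgf_W, mgf_W,
      hH (s₀ + 1 - t) (by linarith)]
    ring

end basics

section conv

theorem conv_apply' (μ ν : Measure ℝ) [SFinite μ] [SFinite ν] {A : Set ℝ} (hA : MeasurableSet A) :
    (μ ∗ ν) A = ∫⁻ x, ν ((fun y => x + y) ⁻¹' A) ∂μ := by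
  rw [← lintegral_indicator_one hA, lintegral_conv' μ ν (measurable_one.indicator hA)]
  refine lintegral_congr fun x => ?_
  have hB : MeasurableSet ((fun y => x + y) ⁻¹' A) := (measurable_const_add x) hA
  rw [← lintegral_indicator_one hB]
  rfl

/-- Monotonicity of the convolution, local version. -/
theorem conv_le (μ ν₁ ν₂ : Measure ℝ) [SFinite μ] [SFinite ν₁] [SFinite ν₂] {C : ℝ≥0∞}
    (hC : C ≠ ∞) {e b : ℝ} (hμ : μ (Iio e) = 0)
    (h : ∀ B, MeasurableSet B → B ⊆ Iio (b - e) → ν₁ B ≤ C * ν₂ B) {A : Set ℝ}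
    (hA : MeasurableSet A) (hAb : A ⊆ Iio b) : (μ ∗ ν₁) A ≤ C * (μ ∗ ν₂) A := by
  rw [conv_apply' μ ν₁ hA, conv_apply' μ ν₂ hA, ← lintegral_const_mul' _ _ hC]
  apply lintegral_mono_ae
  have hae : ∀ᵐ x ∂μ, e ≤ x := by
    rw [ae_iff]; simpa [Iio_def] using hμ
  filter_upwards [hae] with x hx
  apply h _ ((measurable_const_add x) hA)
  intro y hy
  have h2 : x + y < b := hAb hy
  simp only [mem_Iio]; linarith

end conv

section density

variable {c : ℝ} {f g : ℝ → ℝ}

theorem D_apply {A : Set ℝ} (hA : MeasurableSet A) :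
    D c f A = ∫⁻ x in A ∩ Ioi 0, ENNReal.ofReal (Real.exp (-c * x) * f x) := by
  unfold D
  rw [withDensity_apply _ hA, Measure.restrict_restrict hA]

theorem D_neg {A : Set ℝ} (hA : MeasurableSet A) (h : A ⊆ Iio 0) : D c f A = 0 := by
  rw [D_apply hA]
  have : A ∩ Ioi 0 = ∅ := by
    ext x; simp only [mem_inter_iff, mem_Ioi, mem_empty_iff_false, iff_false, not_and]
    intro hx; have := h hx; simp only [mem_Iio] at this; linarith
  rw [this]; simp

theorem D_le_of_le {C b : ℝ} (hC : 0 ≤ C) (h : ∀ x, 0 < x → x < b → f x ≤ C * g x)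
    {A : Set ℝ} (hA : MeasurableSet A) (hAb : A ⊆ Iio b) :
    D c f A ≤ ENNReal.ofReal C * D c g A := by
  rw [D_apply hA, D_apply hA, ← lintegral_const_mul' _ _ ENNReal.ofReal_ne_top]
  apply setLIntegral_mono_ae' (hA.inter measurableSet_Ioi)
  refine ae_of_all _ fun x hx => ?_
  rw [← ENNReal.ofReal_mul hC]
  apply ENNReal.ofReal_le_ofReal
  have h1 := h x hx.2 (hAb hx.1)
  have h2 := Real.exp_pos (-c * x)
  nlinarith

theorem ae_le_of_D_le {C b : ℝ} (hC : 0 ≤ C) (hf : Measurable f) (hg : Measurable g)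
    (hg0 : ∀ x, 0 ≤ g x)
    (h : ∀ A, MeasurableSet A → A ⊆ Iio b → D c f A ≤ ENNReal.ofReal C * D c g A) :
    ∀ᵐ x ∂(volume.restrict (Ioo 0 b)), f x ≤ C * g x := by
  have key : ∀ᵐ x ∂(volume.restrict (Ioo 0 b)),
      ENNReal.ofReal (Real.exp (-c * x) * f x) ≤
        ENNReal.ofReal (Real.exp (-c * x) * (C * g x)) := by
    apply ae_le_of_forall_setLIntegral_le_of_sigmaFinite (by fun_prop)
    intro s hs _
    rw [Measure.restrict_restrict hs]
    have h1 := h (s ∩ Ioo 0 b) (hs.inter measurableSet_Ioo) (fun x hx => hx.2.2)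
    have e1 : s ∩ Ioo 0 b ∩ Ioi 0 = s ∩ Ioo 0 b := by
      ext x; simp only [mem_inter_iff, mem_Ioo, mem_Ioi]; tauto
    rw [D_apply (hs.inter measurableSet_Ioo), D_apply (hs.inter measurableSet_Ioo), e1,
      ← lintegral_const_mul' _ _ ENNReal.ofReal_ne_top] at h1
    refine h1.trans (le_of_eq (lintegral_congr fun x => ?_))
    rw [← ENNReal.ofReal_mul hC]; ring_nf
  filter_upwards [key] with x hx
  have h2 := Real.exp_pos (-c * x)
  have h3 : Real.exp (-c * x) * f x ≤ Real.exp (-c * x) * (C * g x) :=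
    (ENNReal.ofReal_le_ofReal_iff (by have := hg0 x; positivity)).1 hx
  exact le_of_mul_le_mul_left h3 h2

theorem le_of_ae_le {u : ℝ → ℝ} (hu : ∀ x, ContinuousWithinAt u (Ici x) x) {a b : ℝ}
    (h : ∀ᵐ x ∂(volume.restrict (Ioo a b)), 0 ≤ u x) {x : ℝ} (hax : a ≤ x) (hxb : x < b) :
    0 ≤ u x := by
  by_contra hneg
  push Not at hneg
  have h1 : ∀ᶠ y in 𝓝[≥] x, u y < 0 := (hu x).eventually (Iio_mem_nhds hneg)
  obtain ⟨δ, hδ, hsub⟩ := (mem_nhdsGE_iff_exists_Ico_subset).1 h1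
  rw [ae_restrict_iff' measurableSet_Ioo] at h
  have hz : volume (Ioo x (min δ b)) = 0 := by
    refine measure_mono_null ?_ (ae_iff.1 h)
    intro y hy
    simp only [mem_Ioo, lt_min_iff] at hy
    simp only [mem_ofPred_eq, Classical.not_imp, not_le, mem_Ioo]
    exact ⟨⟨by linarith [hy.1], hy.2.2⟩, hsub ⟨hy.1.le, hy.2.1⟩⟩
  rw [Real.volume_Ioo, ENNReal.ofReal_eq_zero] at hz
  have : x < min δ b := lt_min hδ hxb
  linarith

theorem rc_pow (hf : ∀ x, ContinuousWithinAt f (Ici x) x) (k : ℕ) (C : ℝ) :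
    ∀ x, ContinuousWithinAt (fun x => C * f x ^ k) (Ici x) x :=
  fun x => ((hf x).pow k).const_mul C

/-- From an inequality of the measures to a pointwise inequality. -/
theorem le_of_D_le {C b : ℝ} (hC : 0 ≤ C) (hf : Measurable f) (hg : Measurable g)
    (hg0 : ∀ x, 0 ≤ g x) (rf : ∀ x, ContinuousWithinAt f (Ici x) x)
    (rg : ∀ x, ContinuousWithinAt g (Ici x) x)
    (h : ∀ A, MeasurableSet A → A ⊆ Iio b → D c f A ≤ ENNReal.ofReal C * D c g A) :
    ∀ x, 0 < x → x < b → f x ≤ C * g x := by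
  intro x hx hxb
  have h1 := ae_le_of_D_le hC hf hg hg0 h
  have h2 : ∀ᵐ x ∂(volume.restrict (Ioo 0 b)), 0 ≤ C * g x - f x := by
    filter_upwards [h1] with y hy; linarith
  have := le_of_ae_le (u := fun x => C * g x - f x) (fun y => ((rg y).const_mul C).sub (rf y)) h2
    hx.le hxb
  linarith

end density

section compare

/-- Distribution-type functions. -/
structure Nice (φ : ℝ → ℝ) : Prop where
  mono : Monotone φ
  rc : ∀ x, ContinuousWithinAt φ (Ici x) x
  nonneg : ∀ x, 0 ≤ φ x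
  le_one : ∀ x, φ x ≤ 1

variable {c ε τ : ℝ} {N : ℕ} {P Q : Measure ℝ} {φ ψ : ℝ → ℝ}

theorem Nice.meas_pow (h : Nice φ) (k : ℕ) : Measurable (fun x => φ x ^ k) :=
  h.mono.measurable.pow_const k

theorem Nice.pow_nonneg (h : Nice φ) (k : ℕ) (x : ℝ) : 0 ≤ φ x ^ k := _root_.pow_nonneg (h.nonneg x) k

theorem Nice.pow_le_one (h : Nice φ) (k : ℕ) (x : ℝ) : φ x ^ k ≤ 1 :=
  pow_le_one₀ (h.nonneg x) (h.le_one x)

theorem Nice.rc_pow (h : Nice φ) (k : ℕ) (x : ℝ) :
    ContinuousWithinAt (fun x => φ x ^ k) (Ici x) x := (h.rc x).pow k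

theorem conv_zero [SFinite Q] (hQ : Q (Iio ε) = 0) {g : ℝ → ℝ} [SFinite (D c g)] {A : Set ℝ}
    (hA : MeasurableSet A) (hAb : A ⊆ Iio ε) : (Q ∗ D c g) A = 0 := by
  have := conv_le Q (D c g) (D c g) (C := 0) ENNReal.zero_ne_top hQ (b := ε)
    (fun B hB hBs => by
      rw [D_neg hB (by simpa using hBs)]; simp) hA hAb
  simpa using this

theorem local_eq [SFinite P] [SFinite Q] (hQ : Q (Iio ε) = 0) {f g : ℝ → ℝ} [SFinite (D c g)]
    (h : D c f + (Q ∗ D c g) = P ∗ D c g) {A : Set ℝ} (hA : MeasurableSet A)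
    (hAb : A ⊆ Iio ε) : D c f A = (P ∗ D c g) A := by
  rw [← h, Measure.add_apply, conv_zero hQ hA hAb, add_zero]

theorem local_compare (hN : 2 ≤ N) [IsFiniteMeasure P] [IsFiniteMeasure Q] (hc : 0 < c)
    (hτ : 0 < τ) (hP : P (Iio 0) = 0) (hQ : Q (Iio ε) = 0) (hφ : Nice φ) (hψ : Nice ψ)
    (φτ : ∀ x ≤ τ, φ x = 0) (ψpos : ∀ x, 0 < x → 0 < ψ x)
    (idφ : D c (fun x => φ x ^ N) + (Q ∗ D c (fun x => φ x ^ (N - 1)))
      = P ∗ D c (fun x => φ x ^ (N - 1)))
    (idψ : D c (fun x => ψ x ^ N) + (Q ∗ D c (fun x => ψ x ^ (N - 1)))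
      = P ∗ D c (fun x => ψ x ^ (N - 1))) :
    ∀ x, 0 < x → x < ε → φ x ≤ ψ x := by
  have i1 : IsFiniteMeasure (D c (fun x => φ x ^ (N - 1))) :=
    isFinite_D hc (hφ.meas_pow _) (hφ.pow_nonneg _) (hφ.pow_le_one _)
  have i2 : IsFiniteMeasure (D c (fun x => ψ x ^ (N - 1))) :=
    isFinite_D hc (hψ.meas_pow _) (hψ.pow_nonneg _) (hψ.pow_le_one _)
  have step : ∀ M : ℝ, 0 ≤ M → (∀ x, 0 < x → x < ε → φ x ≤ M * ψ x) →
      ∀ x, 0 < x → x < ε → φ x ^ N ≤ M ^ (N - 1) * ψ x ^ N := by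
    intro M hM h
    apply le_of_D_le (c := c) (_root_.pow_nonneg hM _) (hφ.meas_pow N) (hψ.meas_pow N)
      (hψ.pow_nonneg N) (hφ.rc_pow N) (hψ.rc_pow N)
    intro A hA hAb
    rw [local_eq hQ idφ hA hAb, local_eq hQ idψ hA hAb]
    refine conv_le P _ _ ENNReal.ofReal_ne_top hP ?_ hA hAb
    intro B hB hBs
    refine D_le_of_le (_root_.pow_nonneg hM _) ?_ hB hBs
    intro x hx hxe
    rw [← mul_pow]
    exact pow_le_pow_left₀ (hφ.nonneg x) (h x hx (by linarith)) _
  set S : Set ℝ := {M | 0 ≤ M ∧ ∀ x, 0 < x → x < ε → φ x ≤ M * ψ x} with hS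
  have hne : (1 / ψ τ) ∈ S := by
    refine ⟨(one_div_pos.2 (ψpos τ hτ)).le, fun x hx _ => ?_⟩
    rcases le_or_gt x τ with h | h
    · rw [φτ x h]
      exact mul_nonneg (one_div_pos.2 (ψpos τ hτ)).le (hψ.nonneg x)
    · have h1 := ψpos τ hτ
      have h2 := hψ.mono h.le
      have h3 : 1 ≤ 1 / ψ τ * ψ x := by
        rw [one_div, inv_mul_eq_div, le_div_iff₀ h1]; linarith
      exact (hφ.le_one x).trans h3
  have hbdd : BddBelow S := ⟨0, fun M hM => hM.1⟩
  have hmem : sInf S ∈ S := by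
    refine ⟨le_csInf ⟨_, hne⟩ fun M hM => hM.1, fun x hx hxe => ?_⟩
    have h1 : φ x / ψ x ≤ sInf S := by
      apply le_csInf ⟨_, hne⟩
      intro M hM
      rw [div_le_iff₀ (ψpos x hx)]
      exact hM.2 x hx hxe
    rwa [div_le_iff₀ (ψpos x hx)] at h1
  have h0 : 0 ≤ sInf S := hmem.1
  set r : ℝ := (sInf S ^ (N - 1)) ^ ((N : ℝ)⁻¹) with hr
  have hr0 : 0 ≤ r := Real.rpow_nonneg (_root_.pow_nonneg h0 _) _
  have hrN : r ^ N = sInf S ^ (N - 1) :=
    Real.rpow_inv_natCast_pow (_root_.pow_nonneg h0 _) (by omega)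
  have hrS : r ∈ S := by
    refine ⟨hr0, fun x hx hxe => ?_⟩
    have h1 := step _ h0 hmem.2 x hx hxe
    rw [← hrN, ← mul_pow] at h1
    exact (pow_le_pow_iff_left₀ (hφ.nonneg x) (mul_nonneg hr0 (hψ.nonneg x)) (by omega)).1 h1
  have hle : sInf S ≤ r := csInf_le hbdd hrS
  have h1 : sInf S ≤ 1 := by
    by_contra hcon
    push Not at hcon
    have h2 : sInf S ^ N ≤ sInf S ^ (N - 1) := by
      rw [← hrN]; exact pow_le_pow_left₀ h0 hle _
    have h3 : sInf S ^ (N - 1) < sInf S ^ N := pow_lt_pow_right₀ hcon (by omega)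
    linarith
  intro x hx hxe
  have h2 := hmem.2 x hx hxe
  have h3 := hψ.nonneg x
  nlinarith

end compare

section continuation

variable {c ε a δ c₁ : ℝ} {N : ℕ} {P Q : Measure ℝ} {φ ψ : ℝ → ℝ} {f g : ℝ → ℝ}

theorem D_mono_on {A : Set ℝ} (hA : MeasurableSet A) (h : ∀ x ∈ A, f x ≤ g x) :
    D c f A ≤ D c g A := by
  rw [D_apply hA, D_apply hA]
  apply setLIntegral_mono_ae' (hA.inter measurableSet_Ioi)
  refine ae_of_all _ fun x hx => ?_
  apply ENNReal.ofReal_le_ofReal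
  exact mul_le_mul_of_nonneg_left (h x hx.1) (Real.exp_pos _).le

theorem D_add (hf : Measurable f) (f0 : ∀ x, 0 ≤ f x) (g0 : ∀ x, 0 ≤ g x) :
    D c (fun x => f x + g x) = D c f + D c g := by
  ext A hA
  rw [Measure.add_apply, D_apply hA, D_apply hA, D_apply hA, ← lintegral_add_left (by fun_prop)]
  refine lintegral_congr fun x => ?_
  rw [mul_add, ENNReal.ofReal_add (mul_nonneg (Real.exp_pos _).le (f0 x))
    (mul_nonneg (Real.exp_pos _).le (g0 x))]

/-- The difference of the powers. -/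
noncomputable def U (φ ψ : ℝ → ℝ) (k : ℕ) (x : ℝ) : ℝ := |φ x ^ k - ψ x ^ k|

theorem U_nonneg (k : ℕ) (x : ℝ) : 0 ≤ U φ ψ k x := abs_nonneg _

theorem U_comm (k : ℕ) : U φ ψ k = U ψ φ k := by
  funext x; exact abs_sub_comm _ _

theorem U_le_one (hφ : Nice φ) (hψ : Nice ψ) (k : ℕ) (x : ℝ) : U φ ψ k x ≤ 1 := by
  unfold U
  rw [abs_le]
  constructor <;> linarith [hφ.pow_nonneg k x, hψ.pow_nonneg k x, hφ.pow_le_one k x,
    hψ.pow_le_one k x]

theorem U_meas (hφ : Nice φ) (hψ : Nice ψ) (k : ℕ) : Measurable (U φ ψ k) := by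
  unfold U
  exact ((hφ.meas_pow k).sub (hψ.meas_pow k)).abs

theorem conv_diff (hφ : Nice φ) (hψ : Nice ψ) (hc : 0 < c) [IsFiniteMeasure P]
    (hP : P (Iio 0) = 0) (k : ℕ) {b : ℝ} {A : Set ℝ} (hA : MeasurableSet A) (hAb : A ⊆ Iio b) :
    (P ∗ D c (fun x => φ x ^ k)) A
      ≤ (P ∗ D c (fun x => ψ x ^ k)) A + (P ∗ D c (U φ ψ k)) A := by
  have i1 : IsFiniteMeasure (D c (fun x => φ x ^ k)) :=
    isFinite_D hc (hφ.meas_pow _) (hφ.pow_nonneg _) (hφ.pow_le_one _)
  have i2 : IsFiniteMeasure (D c (fun x => ψ x ^ k)) :=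
    isFinite_D hc (hψ.meas_pow _) (hψ.pow_nonneg _) (hψ.pow_le_one _)
  have i3 : IsFiniteMeasure (D c (U φ ψ k)) :=
    isFinite_D hc (U_meas hφ hψ k) (U_nonneg k) (U_le_one hφ hψ k)
  rw [← Measure.add_apply, ← Measure.conv_add]
  have h := conv_le P (D c (fun x => φ x ^ k)) (D c (fun x => ψ x ^ k) + D c (U φ ψ k))
    (C := 1) ENNReal.one_ne_top hP (b := b) (fun B hB _ => by
      rw [one_mul, ← D_add (hψ.meas_pow k) (hψ.pow_nonneg k) (U_nonneg k)]
      apply D_mono_on hB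
      intro x _
      have := le_abs_self (φ x ^ k - ψ x ^ k)
      simp only [U]
      linarith) hA hAb
  simpa using h

theorem main_diff_half (hφ : Nice φ) (hψ : Nice ψ) (hc : 0 < c) [IsFiniteMeasure P]
    [IsFiniteMeasure Q] (hP : P (Iio 0) = 0) (hQ : Q (Iio ε) = 0) (hδε : δ ≤ ε)
    (heq : ∀ x < a, φ x = ψ x)
    (idφ : D c (fun x => φ x ^ N) + (Q ∗ D c (fun x => φ x ^ (N - 1)))
      = P ∗ D c (fun x => φ x ^ (N - 1)))
    (idψ : D c (fun x => ψ x ^ N) + (Q ∗ D c (fun x => ψ x ^ (N - 1)))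
      = P ∗ D c (fun x => ψ x ^ (N - 1))) {A : Set ℝ} (hA : MeasurableSet A)
    (hAb : A ⊆ Iio (a + δ)) :
    D c (fun x => φ x ^ N) A ≤ D c (fun x => ψ x ^ N) A + (P ∗ D c (U φ ψ (N - 1))) A := by
  have i1 : IsFiniteMeasure (D c (fun x => φ x ^ (N - 1))) :=
    isFinite_D hc (hφ.meas_pow _) (hφ.pow_nonneg _) (hφ.pow_le_one _)
  have i2 : IsFiniteMeasure (D c (fun x => ψ x ^ (N - 1))) :=
    isFinite_D hc (hψ.meas_pow _) (hψ.pow_nonneg _) (hψ.pow_le_one _)
  have hX : (Q ∗ D c (fun x => ψ x ^ (N - 1))) A ≤ (Q ∗ D c (fun x => φ x ^ (N - 1))) A := by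
    have h := conv_le Q (D c (fun x => ψ x ^ (N - 1))) (D c (fun x => φ x ^ (N - 1)))
      (C := 1) ENNReal.one_ne_top hQ (b := a + δ) (fun B hB hBs => by
        rw [one_mul]
        apply D_mono_on hB
        intro x hx
        have h1 : x < a + δ - ε := hBs hx
        rw [heq x (by linarith)]) hA hAb
    simpa using h
  have h1 := congrArg (fun m : Measure ℝ => m A) idφ
  have h2 := congrArg (fun m : Measure ℝ => m A) idψ
  simp only [Measure.add_apply] at h1 h2
  have h3 := conv_diff hφ hψ hc hP (N - 1) hA hAb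
  rw [← h1, ← h2] at h3
  have hfin : (Q ∗ D c (fun x => φ x ^ (N - 1))) A ≠ ∞ := measure_ne_top _ _
  rw [← ENNReal.add_le_add_iff_right hfin]
  calc D c (fun x => φ x ^ N) A + (Q ∗ D c (fun x => φ x ^ (N - 1))) A
      ≤ D c (fun x => ψ x ^ N) A + (Q ∗ D c (fun x => ψ x ^ (N - 1))) A
        + (P ∗ D c (U φ ψ (N - 1))) A := h3
    _ ≤ D c (fun x => ψ x ^ N) A + (Q ∗ D c (fun x => φ x ^ (N - 1))) A
        + (P ∗ D c (U φ ψ (N - 1))) A := by gcongr
    _ = _ := by ring

theorem half_diff (hφ : Nice φ) (hψ : Nice ψ) (hc : 0 < c) {A : Set ℝ} (hA : MeasurableSet A)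
    {q : ℝ≥0∞} (hord : ∀ x ∈ A, ψ x ≤ φ x)
    (h : D c (fun x => φ x ^ N) A ≤ D c (fun x => ψ x ^ N) A + q) :
    D c (U φ ψ N) A ≤ q := by
  have i2 : IsFiniteMeasure (D c (fun x => ψ x ^ N)) :=
    isFinite_D hc (hψ.meas_pow _) (hψ.pow_nonneg _) (hψ.pow_le_one _)
  have h1 : D c (fun x => ψ x ^ N) A + D c (U φ ψ N) A ≤ D c (fun x => φ x ^ N) A := by
    rw [← Measure.add_apply, ← D_add (hψ.meas_pow N) (hψ.pow_nonneg N) (U_nonneg N)]
    apply D_mono_on hA
    intro x hx
    have h2 : ψ x ^ N ≤ φ x ^ N := pow_le_pow_left₀ (hψ.nonneg x) (hord x hx) _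
    simp only [U]
    rw [abs_of_nonneg (by linarith)]; linarith
  have h2 := h1.trans h
  exact (ENNReal.add_le_add_iff_left (measure_ne_top _ _)).1 h2

theorem main_diff (hφ : Nice φ) (hψ : Nice ψ) (hc : 0 < c) [IsFiniteMeasure P]
    [IsFiniteMeasure Q] (hP : P (Iio 0) = 0) (hQ : Q (Iio ε) = 0) (hδε : δ ≤ ε)
    (heq : ∀ x < a, φ x = ψ x)
    (idφ : D c (fun x => φ x ^ N) + (Q ∗ D c (fun x => φ x ^ (N - 1)))
      = P ∗ D c (fun x => φ x ^ (N - 1)))
    (idψ : D c (fun x => ψ x ^ N) + (Q ∗ D c (fun x => ψ x ^ (N - 1)))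
      = P ∗ D c (fun x => ψ x ^ (N - 1))) {A : Set ℝ} (hA : MeasurableSet A)
    (hAb : A ⊆ Iio (a + δ)) :
    D c (U φ ψ N) A ≤ (P ∗ D c (U φ ψ (N - 1))) A := by
  have hm : MeasurableSet {x | ψ x ≤ φ x} :=
    measurableSet_le hψ.mono.measurable hφ.mono.measurable
  rw [← measure_inter_add_sdiff A hm, ← measure_inter_add_sdiff (μ := P ∗ D c (U φ ψ (N - 1))) A hm]
  apply add_le_add
  · apply half_diff hφ hψ hc (hA.inter hm) (fun x hx => hx.2)
    exact main_diff_half hφ hψ hc hP hQ hδε heq idφ idψ (hA.inter hm) (fun x hx => hAb hx.1)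
  · rw [U_comm N, U_comm (N - 1)]
    apply half_diff hψ hφ hc (hA.diff hm) (fun x hx => ?_)
    · exact main_diff_half hψ hφ hc hP hQ hδε (fun x hx => (heq x hx).symm) idψ idφ (hA.diff hm)
        (fun x hx => hAb hx.1)
    · have := hx.2
      simp only [mem_ofPred_eq, not_le] at this
      exact this.le

theorem continuation_step (hN : 2 ≤ N) (hφ : Nice φ) (hψ : Nice ψ) (hc : 0 < c)
    [IsFiniteMeasure P] [IsFiniteMeasure Q] (hP : P (Iio 0) = 0) (hQ : Q (Iio ε) = 0)
    (hδ : 0 < δ) (hδε : δ ≤ ε) (ha : 0 < a) (hc₁ : 0 < c₁) (hφ₁ : ∀ x, a ≤ x → c₁ ≤ φ x)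
    (hψ₁ : ∀ x, a ≤ x → c₁ ≤ ψ x) (hPδ : P (Iic δ) < ENNReal.ofReal c₁)
    (heq : ∀ x < a, φ x = ψ x)
    (idφ : D c (fun x => φ x ^ N) + (Q ∗ D c (fun x => φ x ^ (N - 1)))
      = P ∗ D c (fun x => φ x ^ (N - 1)))
    (idψ : D c (fun x => ψ x ^ N) + (Q ∗ D c (fun x => ψ x ^ (N - 1)))
      = P ∗ D c (fun x => ψ x ^ (N - 1))) : ∀ x < a + δ, φ x = ψ x := by
  have i3 : IsFiniteMeasure (D c (U φ ψ (N - 1))) :=
    isFinite_D hc (U_meas hφ hψ _) (U_nonneg _) (U_le_one hφ hψ _)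
  set u := D c (U φ ψ (N - 1)) with hu
  have hzero : ∀ B, MeasurableSet B → B ⊆ Iio a → u B = 0 := by
    intro B hB hBa
    have h1 : D c (U φ ψ (N - 1)) B ≤ D c (fun _ => (0:ℝ)) B := by
      apply D_mono_on hB
      intro x hx
      have : φ x = ψ x := heq x (hBa hx)
      simp [U, this]
    have h2 : D c (fun _ => (0:ℝ)) B = 0 := by rw [D_apply hB]; simp
    rw [h2] at h1
    exact le_antisymm h1 (zero_le)
  have hA : MeasurableSet (Iio (a + δ)) := measurableSet_Iio
  have h1 := main_diff hφ hψ hc hP hQ hδε heq idφ idψ hA subset_rfl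
  have h2 : (P ∗ u) (Iio (a + δ)) ≤ P (Iic δ) * u (Iio (a + δ)) := by
    rw [conv_apply' P u hA]
    have h3 : ∫⁻ x, (Iic δ).indicator (fun _ => u (Iio (a + δ))) x ∂P
        = P (Iic δ) * u (Iio (a + δ)) := by
      rw [lintegral_indicator measurableSet_Iic, setLIntegral_const, mul_comm]
    rw [← h3]
    apply lintegral_mono_ae
    have hae : ∀ᵐ x ∂P, 0 ≤ x := by
      rw [ae_iff]; simpa [Iio_def] using hP
    filter_upwards [hae] with x hx
    by_cases hxδ : x ≤ δ
    · rw [indicator_of_mem (by exact hxδ)]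
      apply measure_mono
      intro y hy
      have : x + y < a + δ := hy
      simp only [mem_Iio]; linarith
    · rw [indicator_of_notMem (by exact hxδ)]
      push Not at hxδ
      refine (hzero _ ((measurable_const_add x) hA) ?_).le
      intro y hy
      have : x + y < a + δ := hy
      simp only [mem_Iio]; linarith
  have h3 : u (Iio (a + δ)) ≤ ENNReal.ofReal (1 / c₁) * D c (U φ ψ N) (Iio (a + δ)) := by
    apply D_le_of_le (by positivity) _ hA subset_rfl
    intro x hx _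
    rcases lt_or_ge x a with hxa | hxa
    · have : φ x = ψ x := heq x hxa
      simp [U, this]
    · rw [one_div, inv_mul_eq_div, le_div_iff₀ hc₁]
      have hN1 : N = (N - 1) + 1 := by omega
      have key : ∀ p q : ℝ, c₁ ≤ p → c₁ ≤ q → q ≤ p → 
          |p ^ (N - 1) - q ^ (N - 1)| * c₁ ≤ |p ^ N - q ^ N| := by
        intro p q hp hq hqp
        have hp0 : 0 ≤ p := by linarith
        have hq0 : 0 ≤ q := by linarith
        have e1 : q ^ (N - 1) ≤ p ^ (N - 1) := pow_le_pow_left₀ hq0 hqp _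
        have e2 : q ^ N ≤ p ^ N := pow_le_pow_left₀ hq0 hqp _
        rw [abs_of_nonneg (by linarith), abs_of_nonneg (by linarith)]
        have e3 : p ^ N = p ^ (N - 1) * p := by conv_lhs => rw [hN1, pow_succ]
        have e4 : q ^ N = q ^ (N - 1) * q := by conv_lhs => rw [hN1, pow_succ]
        rw [e3, e4]
        have e5 : 0 ≤ p ^ (N - 1) := _root_.pow_nonneg hp0 _
        nlinarith [mul_nonneg e5 (sub_nonneg.2 hqp), mul_nonneg (sub_nonneg.2 e1) (sub_nonneg.2 hq)]
      rcases le_total (ψ x) (φ x) with h | h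
      · exact key _ _ (hφ₁ x hxa) (hψ₁ x hxa) h
      · have := key _ _ (hψ₁ x hxa) (hφ₁ x hxa) h
        simp only [U]
        rw [abs_sub_comm (φ x ^ (N - 1)), abs_sub_comm (φ x ^ N)]
        exact this
  have h4 : u (Iio (a + δ)) = 0 := by
    by_contra hne
    have hfin : u (Iio (a + δ)) ≠ ∞ := measure_ne_top _ _
    have h5 : u (Iio (a + δ)) ≤ ENNReal.ofReal (1 / c₁) * P (Iic δ) * u (Iio (a + δ)) := by
      calc _ ≤ _ := h3
        _ ≤ ENNReal.ofReal (1 / c₁) * (P (Iic δ) * u (Iio (a + δ))) := by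
            gcongr; exact h1.trans h2
        _ = _ := by ring
    have h6 : ENNReal.ofReal (1 / c₁) * P (Iic δ) < 1 := by
      have e1 : ENNReal.ofReal (1 / c₁) ≠ 0 := by
        rw [ne_eq, ENNReal.ofReal_eq_zero, not_le]; positivity
      calc ENNReal.ofReal (1 / c₁) * P (Iic δ) < ENNReal.ofReal (1 / c₁) * ENNReal.ofReal c₁ :=
            (ENNReal.mul_lt_mul_iff_right e1 ENNReal.ofReal_ne_top).2 hPδ
        _ = 1 := by
            rw [← ENNReal.ofReal_mul (by positivity), one_div, inv_mul_cancel₀ hc₁.ne',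
              ENNReal.ofReal_one]
    have h7 : ENNReal.ofReal (1 / c₁) * P (Iic δ) * u (Iio (a + δ)) < 1 * u (Iio (a + δ)) :=
      (ENNReal.mul_lt_mul_iff_left hne hfin).2 h6
    rw [one_mul] at h7
    exact absurd h5 (not_le.2 h7)
  have h5 : ∀ x, 0 < x → x < a + δ → U φ ψ (N - 1) x ≤ 0 * (fun _ => (1:ℝ)) x := by
    apply le_of_D_le (c := c) le_rfl (U_meas hφ hψ _) measurable_const (fun _ => zero_le_one)
    · intro x
      exact ((hφ.rc_pow _ x).sub (hψ.rc_pow _ x)).abs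
    · intro x; exact continuousWithinAt_const
    · intro A hA hAs
      have : u A ≤ u (Iio (a + δ)) := measure_mono hAs
      rw [h4] at this
      exact this.trans (zero_le)
  intro x hx
  rcases le_or_gt x 0 with h0 | h0
  · exact heq x (by linarith)
  · have h6 := h5 x h0 hx
    rw [zero_mul] at h6
    have h7 : φ x ^ (N - 1) = ψ x ^ (N - 1) := by
      have := abs_nonpos_iff.1 h6
      linarith
    exact (pow_left_inj₀ (hφ.nonneg x) (hψ.nonneg x) (by omega)).1 h7

end continuation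

section final

theorem lap_shift {f : ℝ → ℝ} (f0 : ∀ x, x ≤ 0 → f x = 0) {τ : ℝ} (hτ : 0 < τ) (s : ℝ) :
    lap (fun x => f (x - τ)) s = Real.exp (-s * τ) * lap f s := by
  unfold lap
  rw [setIntegral_eq_integral_of_forall_compl_eq_zero (s := Ioi (0:ℝ))
    (f := fun x => Real.exp (-s * x) * f (x - τ)),
    setIntegral_eq_integral_of_forall_compl_eq_zero (s := Ioi (0:ℝ))
    (f := fun x => Real.exp (-s * x) * f x), ← integral_const_mul]
  · rw [← integral_sub_right_eq_self (fun x => Real.exp (-s * τ) * (Real.exp (-s * x) * f x)) τ]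
    refine integral_congr_ae (ae_of_all _ fun x => ?_)
    simp only
    rw [← mul_assoc, ← Real.exp_add]
    ring_nf
  · intro x hx
    simp only [mem_Ioi, not_lt] at hx
    rw [f0 x hx, mul_zero]
  · intro x hx
    simp only [mem_Ioi, not_lt] at hx
    rw [f0 (x - τ) (by linarith), mul_zero]

theorem lap_integrable {f : ℝ → ℝ} (hf : Measurable f) (h0 : ∀ x, 0 ≤ f x) (h1 : ∀ x, f x ≤ 1)
    {s : ℝ} (hs : 0 < s) : IntegrableOn (fun x => Real.exp (-s * x) * f x) (Ioi 0) := by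
  refine Integrable.mono' (exp_neg_integrableOn_Ioi 0 hs) ?_ (ae_of_all _ fun x => ?_)
  · exact (by fun_prop : Measurable fun x : ℝ =>
      Real.exp (-s * x) * f x).aestronglyMeasurable
  · rw [Real.norm_of_nonneg (by have := h0 x; positivity)]
    have h2 := h1 x
    have h3 := Real.exp_pos (-s * x)
    nlinarith

/-- The ratio of the Laplace transforms of `F ^ N` and `F ^ (N - 1)`. -/
noncomputable def H (N : ℕ) (F : ℝ → ℝ) (s : ℝ) : ℝ :=
  lap (fun x => F x ^ N) s / lap (fun x => F x ^ (N - 1)) s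

/-- The ratio of the Laplace transforms of the distribution functions
`F ^ N` and `N F ^ (N - 1) - (N - 1) F ^ N` of the two largest of `N` independent variables. -/
noncomputable def K (N : ℕ) (F : ℝ → ℝ) (s : ℝ) : ℝ :=
  lap (fun x => F x ^ N) s / lap (fun x => N * F x ^ (N - 1) - (N - 1) * F x ^ N) s

theorem InC.nice {F : ℝ → ℝ} (h : InC F) : Nice F where
  mono := h.mono
  rc := h.rightCont
  nonneg := fun x => by
    rcases le_or_gt x 0 with hx | hx
    · rw [h.zero x hx]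
    · exact (h.pos x hx).le
  le_one := fun x => h.mono.ge_of_tendsto h.top x

theorem InC.shift {F : ℝ → ℝ} (h : InC F) (τ : ℝ) : Nice (fun x => F (x - τ)) where
  mono := fun x y hxy => h.mono (by linarith)
  rc := fun x => by
    have h1 := h.rightCont (x - τ)
    exact ContinuousWithinAt.comp (f := fun x => x - τ) h1
      (by fun_prop) (fun y hy => by simp only [mem_Ici] at hy ⊢; linarith)
  nonneg := fun x => h.nice.nonneg _
  le_one := fun x => h.nice.le_one _

theorem lap_pow_pos {F : ℝ → ℝ} (h : InC F) (k : ℕ) {s : ℝ} (hs : 0 < s) :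
    0 < lap (fun x => F x ^ k) s := by
  unfold lap
  rw [setIntegral_pos_iff_support_of_nonneg_ae]
  · have : Function.support (fun x => Real.exp (-s * x) * F x ^ k) ∩ Ioi 0 = Ioi 0 := by
      apply inter_eq_right.2
      intro x hx
      have := h.pos x hx
      simp only [Function.mem_support]
      positivity
    rw [this]; simp
  · exact ae_of_all _ fun x => mul_nonneg (Real.exp_pos _).le (h.nice.pow_nonneg k x)
  · exact lap_integrable (h.nice.meas_pow k) (h.nice.pow_nonneg k) (h.nice.pow_le_one k) hs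

theorem K_denom {N : ℕ} {F : ℝ → ℝ} (h : InC F) {s : ℝ} (hs : 0 < s) :
    lap (fun x => N * F x ^ (N - 1) - (N - 1) * F x ^ N) s
      = N * lap (fun x => F x ^ (N - 1)) s - (N - 1) * lap (fun x => F x ^ N) s := by
  have i1 := lap_integrable (h.nice.meas_pow (N - 1)) (h.nice.pow_nonneg _) (h.nice.pow_le_one _) hs
  have i2 := lap_integrable (h.nice.meas_pow N) (h.nice.pow_nonneg _) (h.nice.pow_le_one _) hs
  unfold lap
  rw [← integral_const_mul, ← integral_const_mul, ← integral_sub (i1.const_mul _) (i2.const_mul _)]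
  refine integral_congr_ae (ae_of_all _ fun x => ?_)
  simp only
  ring

theorem lap_mono {N : ℕ} {F : ℝ → ℝ} (h : InC F) {s : ℝ} (hs : 0 < s) :
    lap (fun x => F x ^ N) s ≤ lap (fun x => F x ^ (N - 1)) s := by
  have i1 := lap_integrable (h.nice.meas_pow (N - 1)) (h.nice.pow_nonneg _) (h.nice.pow_le_one _) hs
  have i2 := lap_integrable (h.nice.meas_pow N) (h.nice.pow_nonneg _) (h.nice.pow_le_one _) hs
  unfold lap
  apply integral_mono i2 i1
  intro x
  apply mul_le_mul_of_nonneg_left _ (Real.exp_pos _).le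
  exact pow_le_pow_of_le_one (h.nice.nonneg x) (h.nice.le_one x) (by omega)

/-- Equality of `K` gives equality of `H`. -/
theorem H_eq_of_K_eq {N : ℕ} (hN : 2 ≤ N) {F G : ℝ → ℝ} (hF : InC F) (hG : InC G) {s : ℝ}
    (hs : 0 < s) (h : K N F s = K N G s) : H N F s = H N G s := by
  unfold K at h
  unfold H
  rw [K_denom hF hs, K_denom hG hs] at h
  have a1 := lap_pow_pos hF (N - 1) hs
  have a2 := lap_pow_pos hG (N - 1) hs
  have a3 := lap_mono (N := N) hF hs
  have a4 := lap_mono (N := N) hG hs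
  have hN' : (2:ℝ) ≤ N := by exact_mod_cast hN
  set a := lap (fun x => F x ^ N) s
  set b := lap (fun x => F x ^ (N - 1)) s
  set c := lap (fun x => G x ^ N) s
  set d := lap (fun x => G x ^ (N - 1)) s
  have d1 : 0 < N * b - (N - 1) * a := by nlinarith
  have d2 : 0 < N * d - (N - 1) * c := by nlinarith
  rw [div_eq_div_iff d1.ne' d2.ne'] at h
  rw [div_eq_div_iff a1.ne' a2.ne']
  have hN0 : (N:ℝ) ≠ 0 := by positivity
  apply mul_left_cancel₀ hN0
  linarith

theorem no_atom {c ε : ℝ} {N : ℕ} (hN : 2 ≤ N) {P Q : Measure ℝ} [IsFiniteMeasure P]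
    [IsFiniteMeasure Q] (hc : 0 < c) (hε : 0 < ε) (hQ : Q (Iio ε) = 0) {F : ℝ → ℝ} (hF : InC F)
    (idF : D c (fun x => F x ^ N) + (Q ∗ D c (fun x => F x ^ (N - 1)))
      = P ∗ D c (fun x => F x ^ (N - 1))) : P {0} = 0 := by
  by_contra hne
  have i1 : IsFiniteMeasure (D c (fun x => F x ^ (N - 1))) :=
    isFinite_D hc (hF.nice.meas_pow _) (hF.nice.pow_nonneg _) (hF.nice.pow_le_one _)
  set m : ℝ := (P {0}).toReal with hm
  have hmP : ENNReal.ofReal m = P {0} := ENNReal.ofReal_toReal (measure_ne_top _ _)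
  have hm0 : 0 < m := ENNReal.toReal_pos hne (measure_ne_top _ _)
  have h1 : ∀ x, 0 < x → x < ε → F x ^ (N - 1) ≤ (1 / m) * F x ^ N := by
    apply le_of_D_le (c := c) (by positivity) (hF.nice.meas_pow _) (hF.nice.meas_pow _)
      (hF.nice.pow_nonneg _) (hF.nice.rc_pow _) (hF.nice.rc_pow _)
    intro A hA hAs
    rw [local_eq hQ idF hA hAs, conv_apply' _ _ hA]
    have h2 : ∫⁻ x in {0}, D c (fun x => F x ^ (N - 1)) ((fun y => x + y) ⁻¹' A) ∂P
        ≤ ∫⁻ x, D c (fun x => F x ^ (N - 1)) ((fun y => x + y) ⁻¹' A) ∂P :=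
      setLIntegral_le_lintegral _ _
    rw [lintegral_singleton] at h2
    have h3 : (fun y : ℝ => (0:ℝ) + y) ⁻¹' A = A := by ext y; simp
    rw [h3, ← hmP] at h2
    calc D c (fun x => F x ^ (N - 1)) A
        = ENNReal.ofReal (1 / m) * (D c (fun x => F x ^ (N - 1)) A * ENNReal.ofReal m) := by
          rw [mul_comm (D c _ A), ← mul_assoc, ← ENNReal.ofReal_mul (by positivity), one_div,
            inv_mul_cancel₀ hm0.ne', ENNReal.ofReal_one, one_mul]
      _ ≤ _ := by gcongr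
  have h2 : ∀ x, 0 < x → x < ε → m ≤ F x := by
    intro x hx hxe
    have h3 := h1 x hx hxe
    have h4 := hF.pos x hx
    have h5 : F x ^ N = F x ^ (N - 1) * F x := by
      conv_lhs => rw [show N = (N - 1) + 1 by omega, pow_succ]
    rw [h5, one_div, inv_mul_eq_div, le_div_iff₀ hm0] at h3
    exact le_of_mul_le_mul_left h3 (by positivity)
  have h3 : Tendsto F (𝓝[>] 0) (𝓝 (F 0)) :=
    (hF.rightCont 0).mono_left (nhdsWithin_mono _ Ioi_subset_Ici_self)
  have h4 : m ≤ F 0 := by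
    apply ge_of_tendsto h3
    have : Ioo (0:ℝ) ε ∈ 𝓝[>] (0:ℝ) := Ioo_mem_nhdsGT hε
    filter_upwards [this] with x hx using h2 x hx.1 hx.2
  rw [hF.zero 0 le_rfl] at h4
  linarith

theorem exists_delta {P : Measure ℝ} [IsFiniteMeasure P] (h : P (Iic 0) = 0) {ε c₁ : ℝ}
    (hε : 0 < ε) (hc₁ : 0 < c₁) : ∃ δ, 0 < δ ∧ δ ≤ ε ∧ P (Iic δ) < ENNReal.ofReal c₁ := by
  have h1 : Tendsto (P ∘ fun n : ℕ => Iic (1 / ((n:ℝ) + 1))) atTop
      (𝓝 (P (⋂ n : ℕ, Iic (1 / ((n:ℝ) + 1))))) := by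
    apply tendsto_measure_iInter_atTop
    · intro n; exact measurableSet_Iic.nullMeasurableSet
    · intro n m hnm
      apply Iic_subset_Iic.2
      apply one_div_le_one_div_of_le (by positivity)
      have : (n:ℝ) ≤ m := by exact_mod_cast hnm
      linarith
    · exact ⟨0, measure_ne_top _ _⟩
  have h2 : (⋂ n : ℕ, Iic (1 / ((n:ℝ) + 1))) = Iic (0:ℝ) := by
    ext x
    simp only [mem_iInter, mem_Iic]
    constructor
    · intro hx
      exact ge_of_tendsto' tendsto_one_div_add_atTop_nhds_zero_nat hx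
    · intro hx n
      have : (0:ℝ) < 1 / ((n:ℝ) + 1) := by positivity
      linarith
  rw [h2, h] at h1
  have h3 : ∀ᶠ n : ℕ in atTop, P (Iic (1 / ((n:ℝ) + 1))) < ENNReal.ofReal c₁ :=
    h1.eventually (Iio_mem_nhds (ENNReal.ofReal_pos.2 hc₁))
  have h4 : ∀ᶠ n : ℕ in atTop, 1 / ((n:ℝ) + 1) < ε :=
    tendsto_one_div_add_atTop_nhds_zero_nat.eventually (Iio_mem_nhds hε)
  obtain ⟨n, hn3, hn4⟩ := (h3.and h4).exists
  exact ⟨1 / ((n:ℝ) + 1), by positivity, hn4.le, hn3⟩

/-- One-sided local comparison for members of `C`. -/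
theorem local_le {c ε : ℝ} {N : ℕ} (hN : 2 ≤ N) {P Q : Measure ℝ} [IsFiniteMeasure P]
    [IsFiniteMeasure Q] (hc : 0 < c) (hP : P (Iio 0) = 0) (hQ : Q (Iio ε) = 0) {F G : ℝ → ℝ}
    (hF : InC F) (hG : InC G)
    (idF : ∀ τ, 0 < τ → D c (fun x => F (x - τ) ^ N) + (Q ∗ D c (fun x => F (x - τ) ^ (N - 1)))
      = P ∗ D c (fun x => F (x - τ) ^ (N - 1)))
    (idG : D c (fun x => G x ^ N) + (Q ∗ D c (fun x => G x ^ (N - 1)))
      = P ∗ D c (fun x => G x ^ (N - 1))) : ∀ x, x < ε → F x ≤ G x := by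
  intro y hy
  rcases le_or_gt y 0 with h0 | h0
  · rw [hF.zero y h0]; exact hG.nice.nonneg y
  have h1 : ∀ x, y < x → x < ε → F y ≤ G x := by
    intro x hyx hxe
    have h2 := local_compare (τ := x - y) hN hc (by linarith) hP hQ (hF.shift (x - y)) hG.nice
      (fun z hz => hF.zero _ (by linarith)) hG.pos (idF _ (by linarith)) idG x (by linarith) hxe
    simpa using h2
  have h3 : Tendsto G (𝓝[>] y) (𝓝 (G y)) :=
    (hG.rightCont y).mono_left (nhdsWithin_mono _ Ioi_subset_Ici_self)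
  apply ge_of_tendsto h3
  have : Ioo y ε ∈ 𝓝[>] y := Ioo_mem_nhdsGT hy
  filter_upwards [this] with x hx using h1 x hx.1 hx.2

/-- Let `N ≥ 2` and let `F` be in `C` such that `H N F` is the Laplace transform of a signed measure
`hp - hm` on `[0,∞)` which is nonnegative on some interval `[0,ε)`. Then `K N F` determines `F`
in the whole class `C`. -/
theorem result (N : ℕ) (hN : 2 ≤ N) (F G : ℝ → ℝ) (hF : InC F) (hG : InC G)
    (hp hm : Measure ℝ) (s₀ ε : ℝ) (hs₀ : 0 ≤ s₀) (hε : 0 < ε)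
    (hp0 : hp (Iio 0) = 0) (hm0 : hm (Iio ε) = 0)
    (hpi : ∀ s, s₀ < s → Integrable (fun x => Real.exp (-s * x)) hp)
    (hmi : ∀ s, s₀ < s → Integrable (fun x => Real.exp (-s * x)) hm)
    (hH : ∀ s, s₀ < s →
      H N F s = (∫ x, Real.exp (-s * x) ∂hp) - ∫ x, Real.exp (-s * x) ∂hm)
    (hK : ∀ s, s₀ < s → K N F s = K N G s) : F = G := by
  have hc : 0 < s₀ + 1 := by linarith
  set P := W (s₀ + 1) hp with hPdef
  set Q := W (s₀ + 1) hm with hQdef
  have iP : IsFiniteMeasure P := isFinite_W hpi (by linarith)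
  have iQ : IsFiniteMeasure Q := isFinite_W hmi (by linarith)
  have hP : P (Iio 0) = 0 := withDensity_absolutelyContinuous _ _ hp0
  have hQ : Q (Iio ε) = 0 := withDensity_absolutelyContinuous _ _ hm0
  -- the Laplace identities
  have LF : ∀ s > s₀, lap (fun x => F x ^ N) s
      = ((∫ x, Real.exp (-s * x) ∂hp) - ∫ x, Real.exp (-s * x) ∂hm)
        * lap (fun x => F x ^ (N - 1)) s := by
    intro s hs
    rw [← hH s hs]
    unfold H
    rw [div_mul_cancel₀ _ (lap_pow_pos hF (N - 1) (by linarith)).ne']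
  have LG : ∀ s > s₀, lap (fun x => G x ^ N) s
      = ((∫ x, Real.exp (-s * x) ∂hp) - ∫ x, Real.exp (-s * x) ∂hm)
        * lap (fun x => G x ^ (N - 1)) s := by
    intro s hs
    rw [← hH s hs, H_eq_of_K_eq hN hF hG (by linarith) (hK s hs)]
    unfold H
    rw [div_mul_cancel₀ _ (lap_pow_pos hG (N - 1) (by linarith)).ne']
  have idOf : ∀ A : ℝ → ℝ, InC A → (∀ s > s₀, lap (fun x => A x ^ N) s
      = ((∫ x, Real.exp (-s * x) ∂hp) - ∫ x, Real.exp (-s * x) ∂hm)
        * lap (fun x => A x ^ (N - 1)) s) →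
      D (s₀ + 1) (fun x => A x ^ N) + (Q ∗ D (s₀ + 1) (fun x => A x ^ (N - 1)))
        = P ∗ D (s₀ + 1) (fun x => A x ^ (N - 1)) := by
    intro A hA hL
    exact measure_identity hs₀ (hA.nice.meas_pow _) (hA.nice.pow_nonneg _) (hA.nice.pow_le_one _)
      (hA.nice.meas_pow _) (hA.nice.pow_nonneg _) (hA.nice.pow_le_one _) hpi hmi hL
  have idShift : ∀ A : ℝ → ℝ, InC A → (∀ s > s₀, lap (fun x => A x ^ N) s
      = ((∫ x, Real.exp (-s * x) ∂hp) - ∫ x, Real.exp (-s * x) ∂hm)
        * lap (fun x => A x ^ (N - 1)) s) → ∀ τ, 0 < τ →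
      D (s₀ + 1) (fun x => A (x - τ) ^ N) + (Q ∗ D (s₀ + 1) (fun x => A (x - τ) ^ (N - 1)))
        = P ∗ D (s₀ + 1) (fun x => A (x - τ) ^ (N - 1)) := by
    intro A hA hL τ hτ
    have hn := hA.shift τ
    refine measure_identity hs₀ (hn.meas_pow _) (hn.pow_nonneg _) (hn.pow_le_one _)
      (hn.meas_pow _) (hn.pow_nonneg _) (hn.pow_le_one _) hpi hmi ?_
    intro s hs
    have e1 := lap_shift (f := fun x => A x ^ N)
      (fun x hx => by rw [hA.zero x hx, zero_pow (by omega)]) hτ s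
    have e2 := lap_shift (f := fun x => A x ^ (N - 1))
      (fun x hx => by rw [hA.zero x hx, zero_pow (by omega)]) hτ s
    rw [e1, e2, hL s hs]
    ring
  have idF := idOf F hF LF
  have idG := idOf G hG LG
  -- equality near zero
  have near : ∀ x < ε, F x = G x := by
    intro x hx
    apply le_antisymm
    · exact local_le hN hc hP hQ hF hG (idShift F hF LF) idG x hx
    · exact local_le hN hc hP hQ hG hF (idShift G hG LG) idF x hx
  -- continuation
  have hat : P {0} = 0 := no_atom hN hc hε hQ hF idF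
  have hP0 : P (Iic 0) = 0 := by
    have : Iic (0:ℝ) = Iio 0 ∪ {0} := by
      ext x; simp only [mem_Iic, mem_union, mem_Iio, mem_singleton_iff]; exact le_iff_lt_or_eq
    rw [this]
    exact measure_union_null hP hat
  set c₁ : ℝ := min (F (ε / 2)) (G (ε / 2)) with hc₁def
  have hc₁ : 0 < c₁ := lt_min (hF.pos _ (by linarith)) (hG.pos _ (by linarith))
  obtain ⟨δ, hδ, hδε, hPδ⟩ := exists_delta hP0 hε hc₁
  have all : ∀ n : ℕ, ∀ x < ε + n * δ, F x = G x := by
    intro n
    induction n with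
    | zero => intro x hx; exact near x (by simpa using hx)
    | succ n ih =>
      intro x hx
      have hn : 0 ≤ (n:ℝ) * δ := by positivity
      refine continuation_step hN hF.nice hG.nice hc hP hQ hδ hδε (a := ε + n * δ) (by linarith)
        hc₁ ?_ ?_ hPδ ih idF idG x ?_
      · intro y hy
        exact (min_le_left _ _).trans (hF.mono (by linarith))
      · intro y hy
        exact (min_le_right _ _).trans (hG.mono (by linarith))
      · push_cast at hx; linarith
  funext x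
  obtain ⟨n, hn⟩ := exists_nat_gt (x / δ)
  apply all n x
  rw [div_lt_iff₀ hδ] at hn
  linarith

end final

end Pool.Agent.Results.MP_18566a_pr.LocalPositivity
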